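import Pool.Agent.H56.MM.Defs
import Pool.Agent.H47.MM.Defs
import Pool.Agent.H44.RC.FIN
import Pool.Agent.H3.UP.FTR
import Pool.Agent.H39.EMB.Fin
import Pool.Agent.H91.ATT.Chb

/-!
# THEOREM M, family: the chart at a fixed point, `Hyp`, `J6`

`fix_ex`: a fixed point `q`. `fam2`: in the Moebius chart `φ` with `φ q = ∞` the map `Rf u` satisfies `Hyp` for `C` = the set `Cw f a` in the chart. If every nonempty closed
invariant subset of `Om f a` contains a critical point: `q ∉ Om f a`; if `f c = q`, `c ∈ Cw f a`, then the orbit closure is `{c, q}`, so `q ∈ Om f a` and `{q}` is a closed invariant set without critical points. `off`: a critical point `c'` in the Julia set whose orbit closure meets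
`Cw f a` is in `Cw f a`; the orbits of the other critical points stay away from the Julia set.
-/

set_option autoImplicit false

open Filter Topology Polynomial Metric Set

namespace Pool.Agent.H64.MM

open Pool.Agent.H44.Fatou (rat rat_continuous rat_coe rat_coe_of_ne rat_infty pt dg)
open Pool.Agent.H32.BT Pool.Agent.H79.Eul Pool.Agent.H79.Par Pool.Agent.H79.ES
open Pool.Agent.H35.EX Pool.Agent.H44.RR Pool.Agent.H44.RC Pool.Agent.H47.RJ
open Pool.Agent.H47.NM Pool.Agent.H57.CF Pool.Agent.H47.PS Pool.Agent.H64.NC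
open Pool.Agent.H91.ATT (Mb mb_refl mb_comp ch_mob_b)
open Pool.Agent.H56.MM (Cw)
open Pool.Agent.H47.MM (Hyp)
open Pool.Agent.H39.EMB (om_closed om_inv om_nonempty om_sub1)

variable {d : ℕ}

/-- a rational map of degree at least two has a fixed point -/
theorem fix_ex (hd : 2 ≤ d) {v : E d} (hcop : IsCoprime (pol v.1) (pol v.2))
    (hdeg : max (pol v.1).natDegree (pol v.2).natDegree = d) : ∃ q, Rf v q = q := by
  obtain ⟨a, ha⟩ : ∃ a, a = pol v.1 := ⟨_, rfl⟩
  obtain ⟨b, hb⟩ : ∃ b, b = pol v.2 := ⟨_, rfl⟩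
  have hR : Rf v = rat a b := by rw [ha, hb]; rfl
  rw [← ha, ← hb] at hcop hdeg
  rw [hR]
  obtain ⟨Q, hQ⟩ : ∃ Q : Polynomial ℂ, Q = X * b - a := ⟨_, rfl⟩
  have hb0 : b ≠ 0 := by
    rintro rfl
    rw [isCoprime_zero_right] at hcop
    have h1 := natDegree_eq_zero_of_isUnit hcop
    rw [h1, natDegree_zero, max_self] at hdeg
    omega
  by_cases hroot : ∃ z, Q.IsRoot z
  · obtain ⟨z, hz⟩ := hroot
    have h1 : a.eval z = z * b.eval z := by
      have h2 : Q.eval z = 0 := hz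
      rw [hQ, eval_sub, eval_mul, eval_X] at h2
      exact (sub_eq_zero.1 h2).symm
    have h3 : b.eval z ≠ 0 := by
      intro h0
      rw [h0, mul_zero] at h1
      obtain ⟨s, t, hst⟩ := hcop
      have h4 := congrArg (eval z) hst
      rw [eval_add, eval_mul, eval_mul, h1, h0, mul_zero, mul_zero, add_zero, eval_one] at h4
      exact zero_ne_one h4
    refine ⟨(z : OnePoint ℂ), ?_⟩
    rw [rat_coe_of_ne h3, h1, mul_div_assoc, div_self h3, mul_one]
  · have hQc : Q.natDegree = 0 := by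
      by_contra hne
      have h1 : Q.degree ≠ 0 := fun h2 => hne (natDegree_eq_of_degree_eq_some h2)
      obtain ⟨z, hz⟩ := IsAlgClosed.exists_root Q h1
      exact hroot ⟨z, hz⟩
    have hXb : (X * b).natDegree = b.natDegree + 1 := by
      rw [natDegree_X_mul hb0]
    have ha1 : a = X * b - Q := by rw [hQ]; ring
    have ha2 : a.natDegree = b.natDegree + 1 := by
      rw [ha1, natDegree_sub_eq_left_of_natDegree_lt (by omega), hXb]
    refine ⟨OnePoint.infty, ?_⟩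
    have hdg : dg a b = b.natDegree + 1 := by
      unfold dg
      rw [ha2]
      omega
    rw [rat_infty, hdg, coeff_eq_zero_of_natDegree_lt (by omega : b.natDegree < b.natDegree + 1)]
    unfold pt
    rw [if_pos rfl]

/-- a Moebius chart which sends a given point to infinity -/
theorem ch_pt (hd : 2 ≤ d) (q : OnePoint ℂ) : ∃ (L G : E d → E d) (φ : OnePoint ℂ ≃ₜ OnePoint ℂ) (K : ℝ),
    Ch d L G φ K ∧ Mb φ ∧ φ q = OnePoint.infty := by
  induction q using OnePoint.rec with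
  | infty =>
    -- `0` to infinity after a chart in which the image of infinity is finite
    obtain ⟨G, φ, K, ⟨hch, hmb⟩, -, -, hi⟩ := ch_mob_b (d := d) hd 0
    obtain ⟨G2, φ2, K2, ⟨hch2, hmb2⟩, -, hs2, -⟩ := ch_mob_b (d := d) hd 0
    refine ⟨_, _, φ.trans φ2, K * K2, ch_comp hch hch2, mb_comp hmb hmb2, ?_⟩
    show φ2 (φ OnePoint.infty) = _
    rw [hi, hs2]
  | coe s =>
    obtain ⟨G, φ, K, ⟨hch, hmb⟩, -, hs, -⟩ := ch_mob_b (d := d) hd s
    exact ⟨_, G, φ, K, hch, hmb, hs⟩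

theorem range_two {f : OnePoint ℂ → OnePoint ℂ} {c q : OnePoint ℂ} (h : f c = q) (hq : f q = q) :
    closure (range fun n : ℕ => f^[n] c) ⊆ {c, q} := by
  refine closure_minimal ?_ (finite_singleton q |>.insert c).isClosed
  rintro _ ⟨n, rfl⟩
  show f^[n] c ∈ _
  rcases Nat.eq_zero_or_pos n with rfl | hn
  · exact Or.inl rfl
  · obtain ⟨k, rfl⟩ : ∃ k, n = k + 1 := ⟨n - 1, by omega⟩
    right
    rw [Function.iterate_succ_apply, h, Function.iterate_fixed hq]
    rfl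

/-- the orbit closure of a point of the orbit closure -/
theorem cl_orb {f : OnePoint ℂ → OnePoint ℂ} (hf : Continuous f) {c c' : OnePoint ℂ}
    (h : c ∈ closure (range fun n : ℕ => f^[n] c')) :
    closure (range fun n : ℕ => f^[n] c) ⊆ closure (range fun n : ℕ => f^[n] c') := by
  have hinv : ∀ y ∈ closure (range fun n : ℕ => f^[n] c'), f y ∈ closure (range fun n : ℕ => f^[n] c') := by
    have h1 : MapsTo f (range fun n : ℕ => f^[n] c') (range fun n : ℕ => f^[n] c') := by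
      rintro _ ⟨n, rfl⟩
      exact ⟨n + 1, Function.iterate_succ_apply' _ _ _⟩
    exact h1.closure hf
  refine closure_minimal ?_ isClosed_closure
  rintro _ ⟨n, rfl⟩
  show f^[n] c ∈ _
  induction n with
  | zero => exact h
  | succ n ih =>
    rw [Function.iterate_succ_apply']
    exact hinv _ ih

theorem fin_min {α : Type*} {S : Set α} (hS : S.Finite) {P : ℝ → α → Prop} (hP : ∀ c ρ ρ', ρ' ≤ ρ → P ρ c → P ρ' c)
    (h : ∀ c ∈ S, ∃ ρ : ℝ, 0 < ρ ∧ P ρ c) : ∃ ρ : ℝ, 0 < ρ ∧ ∀ c ∈ S, P ρ c := by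
  induction S, hS using Set.Finite.induction_on with
  | empty => exact ⟨1, one_pos, fun c hc => absurd hc (notMem_empty c)⟩
  | insert _ _ ih =>
    obtain ⟨ρ1, h1, h2⟩ := ih fun c hc => h c (mem_insert_of_mem _ hc)
    obtain ⟨ρ2, h3, h4⟩ := h _ (mem_insert _ _)
    refine ⟨min ρ1 ρ2, lt_min h1 h3, fun c hc => ?_⟩
    rcases mem_insert_iff.1 hc with rfl | hc
    · exact hP _ _ _ (min_le_right _ _) h4
    · exact hP _ _ _ (min_le_left _ _) (h2 c hc)

theorem fam2 {m : ℕ} (hd : 2 ≤ d) (hm : m ≤ d) {x : Em d m} (hcop : IsCoprime (pol x.1) (pol x.2))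
    (hdeg : max (pol x.1).natDegree (pol x.2).natDegree = d) (hup : ¬ UpF d m x) (a : OnePoint ℂ) :
    ∃ (L G : E d → E d) (φ : OnePoint ℂ ≃ₜ OnePoint ℂ) (K : ℝ), Ch d L G φ K ∧ Mb φ ∧
      IsCoprime (pol (L (ex d m x)).1) (pol (L (ex d m x)).2) ∧
      max (pol (L (ex d m x)).1).natDegree (pol (L (ex d m x)).2).natDegree = d ∧
      (∀ y, Rf (L (ex d m x)) (φ y) = φ (Rf (ex d m x) y)) ∧
      Rf (L (ex d m x)) OnePoint.infty = OnePoint.infty ∧ J6 (Rf (L (ex d m x))) ∧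
      (∀ c ∈ Cw (Rf (ex d m x)) a, φ c ≠ OnePoint.infty) ∧
      Hyp (pol (L (ex d m x)).1) (pol (L (ex d m x)).2) {z : ℂ | φ.symm (z : OnePoint ℂ) ∈ Cw (Rf (ex d m x)) a} ∧
      (a ∈ JS (Rf (ex d m x)) → (∀ A ⊆ Om (Rf (ex d m x)) a, IsClosed A → A.Nonempty → (∀ y ∈ A, Rf (ex d m x) y ∈ A) →
        ∃ c ∈ A, IsCrit (Rf (ex d m x)) c) → (∀ c ∈ Cw (Rf (ex d m x)) a, φ (Rf (ex d m x) c) ≠ OnePoint.infty) ∧
        (∀ y ∈ Om (Rf (ex d m x)) a, φ y ≠ OnePoint.infty) ∧ closure (range fun n : ℕ => (Rf (ex d m x))^[n] a) ≠ univ) := by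
  obtain ⟨v, hv⟩ : ∃ v, v = ex d m x := ⟨_, rfl⟩
  have hcopv : IsCoprime (pol v.1) (pol v.2) := hv ▸ ex_cop hcop
  have hdegv : max (pol v.1).natDegree (pol v.2).natDegree = d := hv ▸ ex_deg hdeg
  have hnper : ∀ {c : OnePoint ℂ}, IsCrit (Rf v) c → c ∈ JS (Rf v) → Rf v c ≠ c := by
    intro c h1 h2
    rw [hv] at h1 h2 ⊢
    have h3 := Pool.Agent.H39.EMB.crit_nper hd hm hcop hdeg hup h1 h2 (N := 1) le_rfl
    rwa [Function.iterate_one] at h3
  have hfat : ∀ c, IsCrit (Rf v) c → c ∉ JS (Rf v) → ∃ (δ : ℝ) (N : ℕ), 0 < δ ∧ ∀ n, N ≤ n →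
      ∀ y ∈ JS (Rf v), δ ≤ chord ((Rf v)^[n] c) y := by
    rw [hv]
    exact Pool.Agent.H3.UP.fat_fam hd hm hcop hdeg hup
  rw [← hv]
  have hcont : Continuous (Rf v) := rat_continuous hcopv
  have hJc : IsClosed (JS (Rf v)) := js_closed _
  have hJi : ∀ y ∈ JS (Rf v), Rf v y ∈ JS (Rf v) :=
    fun y hy hF => hy ((fs_iff (by omega) hcopv hdegv 1 y).1 hF)
  have hJb : ∀ y, Rf v y ∈ JS (Rf v) → y ∈ JS (Rf v) :=
    fun y hy hF => hy ((fs_iff (by omega) hcopv hdegv 1 y).2 hF)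
  have hit : ∀ (n : ℕ) {y : OnePoint ℂ}, y ∈ JS (Rf v) → (Rf v)^[n] y ∈ JS (Rf v) := by
    intro n
    induction n with
    | zero => exact fun hy => hy
    | succ n ih =>
      intro y hy
      rw [Function.iterate_succ_apply']
      exact hJi _ (ih hy)
  have hitb : ∀ (n : ℕ) {y : OnePoint ℂ}, (Rf v)^[n] y ∈ JS (Rf v) → y ∈ JS (Rf v) := by
    intro n
    induction n with
    | zero => exact fun hy => hy
    | succ n ih =>
      intro y hy
      rw [Function.iterate_succ_apply'] at hy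
      exact ih (hJb _ hy)
  obtain ⟨q, hq⟩ := fix_ex hd hcopv hdegv
  have hcq : ∀ c ∈ Cw (Rf v) a, c ≠ q := by
    rintro c ⟨h1, h2, -⟩ h5
    exact hnper h1 h2 (h5 ▸ hq)
  obtain ⟨L, G, φ, K, hch, hmb, hφq⟩ := ch_pt (d := d) hd q
  obtain ⟨hcopL, hdegL, hφ⟩ := hch.conj v hcopv hdegv
  have hne : ∀ y : OnePoint ℂ, y ≠ q → φ y ≠ OnePoint.infty := fun y hy h1 => by
    rw [← hφq] at h1
    exact hy (φ.injective h1)
  have hi : Rf (L v) OnePoint.infty = OnePoint.infty := by rw [← hφq, hφ, hq]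
  have hd1 : 1 ≤ max (pol v.1).natDegree (pol v.2).natDegree := by omega
  have hfin : (Cw (Rf v) a).Finite := (crit_finite hcopv hd1).subset fun c hc => hc.1
  have hitφ : ∀ (n : ℕ) (y : OnePoint ℂ), (Rf (L v))^[n] (φ y) = φ ((Rf v)^[n] y) := by
    intro n
    induction n with
    | zero => exact fun y => rfl
    | succ n ih =>
      intro y
      rw [Function.iterate_succ_apply', Function.iterate_succ_apply', ih, hφ]
  refine ⟨L, G, φ, K, hch, hmb, hcopL, hdegL, hφ, hi, j6_of hd hcopL hdegL,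
    fun c hc => hne c (hcq c hc), ?_, ?_⟩
  swap
  · intro haJ hN
    have hOmJ : Om (Rf v) a ⊆ JS (Rf v) := om_sub1 hJc (Eventually.of_forall fun n => hit n haJ)
    have hqO : q ∉ Om (Rf v) a := by
      intro hqO
      obtain ⟨c', hc', hc1⟩ := hN {q} (singleton_subset_iff.2 hqO) isClosed_singleton ⟨q, rfl⟩ (by
        intro y hy
        rw [mem_singleton_iff.1 hy]
        exact hq)
      rw [mem_singleton_iff.1 hc'] at hc1
      exact hnper hc1 (hOmJ hqO) hq
    refine ⟨?_, fun y hy => hne y fun h => hqO (h ▸ hy), ?_⟩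
    · rintro c ⟨h1, h2, b, hb, h3, h4⟩
      refine hne _ fun h5 => hqO ?_
      rcases range_two h5 hq hb with h6 | h6
      · have h7 := om_inv hcont b h4
        rwa [h6, h5] at h7
      · rwa [mem_singleton_iff.1 h6] at h4
    · intro huniv
      -- the orbit of `a` is dense: `q` is in the orbit (then it is in `Om`) or in `Om`
      have h1 : q ∈ closure (range fun n : ℕ => (Rf v)^[n] a) := huniv ▸ mem_univ q
      by_cases h2 : ∃ n : ℕ, (Rf v)^[n] a = q
      · obtain ⟨n, hn⟩ := h2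
        apply hqO
        intro U hU
        refine Eventually.frequently ?_
        filter_upwards [eventually_ge_atTop n] with k hk
        obtain ⟨j, rfl⟩ : ∃ j, k = j + n := ⟨k - n, by omega⟩
        rw [Function.iterate_add_apply, hn, Function.iterate_fixed hq]
        exact mem_of_mem_nhds hU
      · push Not at h2
        apply hqO
        intro U hU
        rw [frequently_atTop]
        intro n
        have h3 : U ∩ ((fun i : ℕ => (Rf v)^[i] a) '' (Iio n))ᶜ ∈ 𝓝 q := by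
          refine inter_mem hU (((finite_Iio n).image _).isClosed.isOpen_compl.mem_nhds ?_)
          rintro ⟨i, -, hi⟩
          exact h2 i hi
        obtain ⟨_, ⟨h4, h5⟩, i, rfl⟩ := mem_closure_iff_nhds.1 h1 _ h3
        refine ⟨i, ?_, h4⟩
        by_contra h6
        exact h5 ⟨i, mem_Iio.2 (not_le.1 h6), rfl⟩
  -- the orbits of the other critical points stay away from `Cw`
  have hoff : ∀ c', IsCrit (Rf v) c' → c' ∉ Cw (Rf v) a → ∃ ρ : ℝ, 0 < ρ ∧ ∀ n : ℕ, ∀ c ∈ Cw (Rf v) a,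
      ρ ≤ chord ((Rf v)^[n] c') c := by
    intro c' hc' hcn
    refine fin_min hfin (P := fun ρ c => ∀ n : ℕ, ρ ≤ chord ((Rf v)^[n] c') c) (fun c ρ ρ' h1 h2 n => h1.trans (h2 n)) ?_ |>.imp
      fun ρ h1 => ⟨h1.1, fun n c hc => h1.2 c hc n⟩
    intro c hc
    by_cases hcJ : c' ∈ JS (Rf v)
    · -- the orbit closure does not meet `Cw`
      have h3 : c ∈ (closure (range fun n : ℕ => (Rf v)^[n] c'))ᶜ := by
        obtain ⟨h3, h4, b, hb, h5⟩ := hc
        exact fun h2 => hcn ⟨hc', hcJ, b, cl_orb hcont h2 hb, h5⟩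
      obtain ⟨ρ, hρ, h4⟩ := Pool.Agent.H47.RJ.ch_nhds (isClosed_closure.isOpen_compl.mem_nhds h3)
      refine ⟨ρ, hρ, fun n => ?_⟩
      by_contra h5
      push Not at h5
      rw [chord_comm] at h5
      exact h4 _ h5 (subset_closure ⟨n, rfl⟩)
    · obtain ⟨δ, N, hδ, h1⟩ := hfat c' hc' hcJ
      obtain ⟨ρ, hρ, h2⟩ := fin_min (Finset.finite_toSet (Finset.range N)) (P := fun ρ n => ρ ≤ chord ((Rf v)^[n] c') c)
        (fun c ρ ρ' h1 h2 => h1.trans h2) fun n _ => by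
          refine ⟨chord ((Rf v)^[n] c') c, chord_pos fun h3 => hcJ (hitb n (h3 ▸ hc.2.1)), le_rfl⟩
      refine ⟨min δ ρ, lt_min hδ hρ, fun n => ?_⟩
      rcases Nat.lt_or_ge n N with h3 | h3
      · exact (min_le_right _ _).trans (h2 n (Finset.mem_coe.2 (Finset.mem_range.2 h3)))
      · exact (min_le_left _ _).trans (h1 n h3 c hc.2.1)
  have hφC : ∀ c ∈ Cw (Rf v) a, ∃ z : ℂ, φ c = (z : OnePoint ℂ) := fun c hc => by
    obtain ⟨z, hz⟩ := OnePoint.ne_infty_iff_exists.1 (hne c (hcq c hc))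
    exact ⟨z, hz.symm⟩
  refine ⟨hcopL, by omega, hi, ?_, ?_, ?_, ?_⟩
  · exact (hfin.image φ).preimage OnePoint.coe_injective.injOn |>.subset fun z hz => ⟨_, hz, φ.apply_symm_apply _⟩
  · intro z hz
    have h1 : IsCrit (Rf (L v)) (φ (φ.symm (z : OnePoint ℂ))) := (isCrit_conj φ hφ _).2 hz.1
    rwa [φ.apply_symm_apply] at h1
  · intro z hz
    have h1 : φ (φ.symm (z : OnePoint ℂ)) ∈ JS (Rf (L v)) := (js_conj φ (fun y => (hφ y).symm) _).2 hz.2.1
    rwa [φ.apply_symm_apply] at h1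
  · -- `off`
    have hfinC : {c' | IsCrit (Rf v) c'}.Finite := crit_finite hcopv hd1
    obtain ⟨ρ, hρ, h1⟩ := fin_min hfinC (P := fun ρ c' => c' ∉ Cw (Rf v) a → ∀ n : ℕ, ∀ c ∈ Cw (Rf v) a,
        ρ ≤ chord ((Rf v)^[n] c') c) (fun c ρ ρ' h1 h2 h3 n c hc => h1.trans (h2 h3 n c hc)) fun c' hc' => by
          by_cases h2 : c' ∈ Cw (Rf v) a
          · exact ⟨1, one_pos, fun h3 => absurd h2 h3⟩
          · obtain ⟨ρ, h3, h4⟩ := hoff c' hc' h2
            exact ⟨ρ, h3, fun _ => h4⟩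
    have hK : 0 < K := one_pos.trans_le hch.K1
    refine ⟨ρ / K, by positivity, fun c1 hc1 hne1 n c hc z hz => ?_⟩
    obtain ⟨c', rfl⟩ := φ.surjective c1
    have h2 : IsCrit (Rf v) c' := (isCrit_conj φ hφ c').1 hc1
    have h3 : c' ∉ Cw (Rf v) a := by
      intro h4
      obtain ⟨w, hw⟩ := hφC c' h4
      refine hne1 w ?_ hw
      show φ.symm (w : OnePoint ℂ) ∈ Cw (Rf v) a
      rw [← hw, φ.symm_apply_apply]
      exact h4
    have h4 := h1 c' h2 h3 n (φ.symm (c : OnePoint ℂ)) hc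
    have h5 := (hch.bil ((Rf v)^[n] c') (φ.symm (c : OnePoint ℂ))).2
    rw [φ.apply_symm_apply, ← hitφ] at h5
    have hz' : (Rf (L v))^[n] (φ c') = (z : OnePoint ℂ) := hz
    rw [hz'] at h5
    have h6 : chord (z : OnePoint ℂ) (c : OnePoint ℂ) ≤ ‖z - c‖ := by
      change ‖z - c‖ / (√(1 + ‖z‖ ^ 2) * √(1 + ‖c‖ ^ 2)) ≤ _
      refine div_le_self (norm_nonneg _) ?_
      have h7 : 1 ≤ √(1 + ‖z‖ ^ 2) := Real.one_le_sqrt.2 (by nlinarith [sq_nonneg ‖z‖])
      have h8 : 1 ≤ √(1 + ‖c‖ ^ 2) := Real.one_le_sqrt.2 (by nlinarith [sq_nonneg ‖c‖])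
      nlinarith
    rw [div_le_iff₀ hK]
    calc ρ ≤ K * chord (z : OnePoint ℂ) (c : OnePoint ℂ) := h4.trans h5
      _ ≤ K * ‖z - c‖ := mul_le_mul_of_nonneg_left h6 hK.le
      _ = ‖z - c‖ * K := mul_comm _ _

end Pool.Agent.H64.MM
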