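import Pool.Agent.H35.EX.Chord
import Pool.Agent.H91.ATT.Mb

/-!
# THEOREM M, disc comparison

`dsc`: in a Moebius chart `φ` the chordal disc `D(p, r)` is the image of the unit disc under a Moebius map `g` with `g 0 = φ p`, and
the disc `D(p, k r)` is in the image of `{|w| < k}`.
PROOF. `p = prj α β`, `|α|² + |β|² = 1`; `rot t = prj (α + t β̄) (β - t ᾱ)` is a rotation, `rot 0 = p`, `chord p (rot t) = |t| / √(1 + |t|²)`. `g w = φ (rot (R w))`, `R = r / √(1 - r²)`.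
-/

set_option autoImplicit false

open Metric Set

namespace Pool.Agent.H64.MM

open Pool.Agent.H35.EX Pool.Agent.H91.ATT

/-- the chordal distance in homogeneous coordinates -/
theorem chord_prj {x y x' y' : ℂ} (h : x ≠ 0 ∨ y ≠ 0) (h' : x' ≠ 0 ∨ y' ≠ 0) :
    chord (prj x y) (prj x' y') = ‖x * y' - x' * y‖ / (√(‖x‖ ^ 2 + ‖y‖ ^ 2) * √(‖x'‖ ^ 2 + ‖y'‖ ^ 2)) := by
  have key : ∀ u v : ℂ, v ≠ 0 → √(‖u‖ ^ 2 + ‖v‖ ^ 2) = ‖v‖ * √(1 + ‖u / v‖ ^ 2) := by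
    intro u v hv
    have h0 : 0 < ‖v‖ := norm_pos_iff.2 hv
    have h1 : ‖u‖ ^ 2 + ‖v‖ ^ 2 = ‖v‖ ^ 2 * (1 + ‖u / v‖ ^ 2) := by
      rw [norm_div]
      field_simp
      ring
    rw [h1, Real.sqrt_mul (by positivity), Real.sqrt_sq h0.le]
  have key0 : ∀ u : ℂ, √(‖u‖ ^ 2 + ‖(0 : ℂ)‖ ^ 2) = ‖u‖ := by
    intro u
    rw [norm_zero, zero_pow two_ne_zero, add_zero, Real.sqrt_sq (norm_nonneg u)]
  by_cases hy : y = 0
  · subst hy
    have hx : x ≠ 0 := by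
      rcases h with h | h
      · exact h
      · exact absurd rfl h
    have hx0 : 0 < ‖x‖ := norm_pos_iff.2 hx
    by_cases hy' : y' = 0
    · subst hy'
      rw [prj_zero, prj_zero]
      have e : x * 0 - x' * 0 = 0 := by ring
      rw [e, norm_zero, zero_div]
      rfl
    · have hy0 : 0 < ‖y'‖ := norm_pos_iff.2 hy'
      rw [prj_zero, prj_ne hy', key0, key x' y' hy']
      change 1 / √(1 + ‖x' / y'‖ ^ 2) = _
      have e : x * y' - x' * 0 = x * y' := by ring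
      rw [e, norm_mul]
      have hs : 0 < √(1 + ‖x' / y'‖ ^ 2) := Real.sqrt_pos.2 (by positivity)
      field_simp
  · have hy1 : 0 < ‖y‖ := norm_pos_iff.2 hy
    have hs : 0 < √(1 + ‖x / y‖ ^ 2) := Real.sqrt_pos.2 (by positivity)
    by_cases hy' : y' = 0
    · subst hy'
      have hx : x' ≠ 0 := by
        rcases h' with h | h
        · exact h
        · exact absurd rfl h
      have hx0 : 0 < ‖x'‖ := norm_pos_iff.2 hx
      rw [prj_zero, prj_ne hy, key0, key x y hy]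
      change 1 / √(1 + ‖x / y‖ ^ 2) = _
      have e : x * 0 - x' * y = -(x' * y) := by ring
      rw [e, norm_neg, norm_mul]
      field_simp
    · have hy0 : 0 < ‖y'‖ := norm_pos_iff.2 hy'
      have hs' : 0 < √(1 + ‖x' / y'‖ ^ 2) := Real.sqrt_pos.2 (by positivity)
      rw [prj_ne hy, prj_ne hy', key x y hy, key x' y' hy']
      change ‖x / y - x' / y'‖ / (√(1 + ‖x / y‖ ^ 2) * √(1 + ‖x' / y'‖ ^ 2)) = _
      have e : x * y' - x' * y = (y * y') * (x / y - x' / y') := by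
        field_simp
      have e2 : ‖x * y' - x' * y‖ = ‖y‖ * ‖y'‖ * ‖x / y - x' / y'‖ := by rw [e, norm_mul, norm_mul]
      rw [e2]
      field_simp

/-- unit homogeneous coordinates -/
theorem prj_unit (p : OnePoint ℂ) : ∃ α β : ℂ, ‖α‖ ^ 2 + ‖β‖ ^ 2 = 1 ∧ p = prj α β := by
  induction p using OnePoint.rec with
  | infty =>
    refine ⟨1, 0, ?_, (prj_zero 1).symm⟩
    rw [norm_one, norm_zero]
    ring
  | coe z =>
    obtain ⟨s, hs⟩ : ∃ s, s = √(1 + ‖z‖ ^ 2) := ⟨_, rfl⟩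
    have hs0 : 0 < s := by
      rw [hs]
      exact Real.sqrt_pos.2 (by positivity)
    have hs2 : s ^ 2 = 1 + ‖z‖ ^ 2 := by
      rw [hs, Real.sq_sqrt (by positivity)]
    have hsc : (s : ℂ) ≠ 0 := by exact_mod_cast hs0.ne'
    refine ⟨z / (s : ℂ), 1 / (s : ℂ), ?_, ?_⟩
    · rw [norm_div, norm_div, norm_one, Complex.norm_real, Real.norm_of_nonneg hs0.le, div_pow, div_pow, ← add_div, hs2, one_pow,
        add_comm (‖z‖ ^ 2), div_self (by positivity)]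
    · rw [prj_ne (one_div_ne_zero hsc)]
      congr 1
      field_simp

/-- the norm of a vector in the basis `(α, β), (β̄, - ᾱ)` -/
theorem nrm_rot {α β t : ℂ} (h : ‖α‖ ^ 2 + ‖β‖ ^ 2 = 1) :
    ‖α + t * (starRingEnd ℂ) β‖ ^ 2 + ‖β - t * (starRingEnd ℂ) α‖ ^ 2 = 1 + ‖t‖ ^ 2 := by
  have hn : ∀ z : ℂ, ((‖z‖ ^ 2 : ℝ) : ℂ) = z * (starRingEnd ℂ) z := by
    intro z
    rw [Complex.mul_conj, Complex.normSq_eq_norm_sq]
  have h1 : ((‖α‖ ^ 2 : ℝ) : ℂ) + ((‖β‖ ^ 2 : ℝ) : ℂ) = 1 := by exact_mod_cast congrArg (fun r : ℝ => (r : ℂ)) h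
  rw [hn, hn] at h1
  have key : (((‖α + t * (starRingEnd ℂ) β‖ ^ 2 + ‖β - t * (starRingEnd ℂ) α‖ ^ 2 : ℝ)) : ℂ) = ((1 + ‖t‖ ^ 2 : ℝ) : ℂ) := by
    rw [Complex.ofReal_add, Complex.ofReal_add, hn, hn, hn, map_add, map_sub, map_mul, map_mul, Complex.conj_conj, Complex.conj_conj,
      Complex.ofReal_one]
    linear_combination (1 + t * (starRingEnd ℂ) t) * h1
  exact_mod_cast key

theorem dsc {φ : OnePoint ℂ ≃ₜ OnePoint ℂ} (hφ : Mb φ) {p : OnePoint ℂ} {r : ℝ} (hr0 : 0 < r) (hr1 : r < 1)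
    (hfin : ∀ x : OnePoint ℂ, chord p x < r → φ x ≠ OnePoint.infty) :
    ∃ g : ℂ → ℂ, DifferentiableOn ℂ g (ball 0 1) ∧ InjOn g (ball 0 1) ∧ (g 0 : OnePoint ℂ) = φ p ∧
      (∀ x : OnePoint ℂ, chord p x < r ↔ ∃ w ∈ ball (0 : ℂ) 1, (g w : OnePoint ℂ) = φ x) ∧
      ∀ k : ℝ, 0 < k → k < 1 → ∀ w ∈ ball (0 : ℂ) 1, chord p (φ.symm (g w)) < k * r → ‖w‖ < k := by
  obtain ⟨a, b, c, e, hD, hm⟩ := hφ
  obtain ⟨α, β, hu, rfl⟩ := prj_unit p
  have hαβ : α ≠ 0 ∨ β ≠ 0 := by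
    by_contra hcon
    push Not at hcon
    obtain ⟨h1, h2⟩ := hcon
    rw [h1, h2, norm_zero] at hu
    norm_num at hu
  have hn : ∀ z : ℂ, ((‖z‖ ^ 2 : ℝ) : ℂ) = z * (starRingEnd ℂ) z := by
    intro z
    rw [Complex.mul_conj, Complex.normSq_eq_norm_sq]
  have hu1 : α * (starRingEnd ℂ) α + β * (starRingEnd ℂ) β = 1 := by
    have h1 : ((‖α‖ ^ 2 : ℝ) : ℂ) + ((‖β‖ ^ 2 : ℝ) : ℂ) = 1 := by exact_mod_cast congrArg (fun r : ℝ => (r : ℂ)) hu
    rwa [hn, hn] at h1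
  -- the rotation
  obtain ⟨rot, hrot⟩ : ∃ rot : ℂ → OnePoint ℂ, rot = fun t => prj (α + t * (starRingEnd ℂ) β) (β - t * (starRingEnd ℂ) α) := ⟨_, rfl⟩
  have hne : ∀ t : ℂ, α + t * (starRingEnd ℂ) β ≠ 0 ∨ β - t * (starRingEnd ℂ) α ≠ 0 := by
    intro t
    by_contra hcon
    push Not at hcon
    obtain ⟨h1, h2⟩ := hcon
    have h3 := nrm_rot (t := t) hu
    rw [h1, h2, norm_zero] at h3
    have h4 : (0 : ℝ) ≤ ‖t‖ ^ 2 := by positivity
    nlinarith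
  have hch : ∀ t : ℂ, chord (prj α β) (rot t) = ‖t‖ / √(1 + ‖t‖ ^ 2) := by
    intro t
    rw [hrot]
    show chord (prj α β) (prj (α + t * (starRingEnd ℂ) β) (β - t * (starRingEnd ℂ) α)) = _
    rw [chord_prj hαβ (hne t), nrm_rot hu, hu, Real.sqrt_one, one_mul]
    congr 1
    have e1 : α * (β - t * (starRingEnd ℂ) α) - (α + t * (starRingEnd ℂ) β) * β = -t := by
      linear_combination (-t) * hu1
    rw [e1, norm_neg]
  obtain ⟨R, hR⟩ : ∃ R, R = r / √(1 - r ^ 2) := ⟨_, rfl⟩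
  have hr2 : 0 < 1 - r ^ 2 := by nlinarith
  have hs0 : 0 < √(1 - r ^ 2) := Real.sqrt_pos.2 hr2
  have hR0 : 0 < R := by
    rw [hR]
    exact div_pos hr0 hs0
  have hR2 : R ^ 2 * (1 - r ^ 2) = r ^ 2 := by
    rw [hR, div_pow, Real.sq_sqrt hr2.le, div_mul_cancel₀ _ hr2.ne']
  have hcmp : ∀ (t : ℂ) (q : ℝ), 0 < q → (chord (prj α β) (rot t) < q ↔ ‖t‖ ^ 2 < q ^ 2 * (1 + ‖t‖ ^ 2)) := by
    intro t q hq
    have h1 : 0 < √(1 + ‖t‖ ^ 2) := Real.sqrt_pos.2 (by positivity)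
    rw [hch, div_lt_iff₀ h1]
    rw [← pow_lt_pow_iff_left₀ (norm_nonneg t) (mul_pos hq h1).le two_ne_zero, mul_pow, Real.sq_sqrt (by positivity)]
  have hlt : ∀ t : ℂ, chord (prj α β) (rot t) < r ↔ ‖t‖ < R := by
    intro t
    rw [hcmp t r hr0, ← pow_lt_pow_iff_left₀ (norm_nonneg t) hR0.le two_ne_zero]
    constructor
    · intro h
      have h1 : ‖t‖ ^ 2 * (1 - r ^ 2) < R ^ 2 * (1 - r ^ 2) := by
        rw [hR2]
        linarith
      exact lt_of_mul_lt_mul_right h1 hr2.le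
    · intro h
      have h1 : ‖t‖ ^ 2 * (1 - r ^ 2) < R ^ 2 * (1 - r ^ 2) := mul_lt_mul_of_pos_right h hr2
      rw [hR2] at h1
      linarith
  -- the chart of the rotation
  obtain ⟨A, hA⟩ : ∃ A, A = a * α + b * β := ⟨_, rfl⟩
  obtain ⟨B, hB⟩ : ∃ B, B = a * (starRingEnd ℂ) β - b * (starRingEnd ℂ) α := ⟨_, rfl⟩
  obtain ⟨C, hC⟩ : ∃ C, C = c * α + e * β := ⟨_, rfl⟩
  obtain ⟨E, hE⟩ : ∃ E, E = c * (starRingEnd ℂ) β - e * (starRingEnd ℂ) α := ⟨_, rfl⟩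
  have hdet : A * E - B * C ≠ 0 := by
    have h1 : A * E - B * C = -(a * e - b * c) := by
      rw [hA, hB, hC, hE]
      linear_combination (-(a * e - b * c)) * hu1
    rw [h1]
    exact neg_ne_zero.2 hD
  have hφr : ∀ t : ℂ, φ (rot t) = prj (A + t * B) (C + t * E) := by
    intro t
    rw [hrot]
    show φ (prj (α + t * (starRingEnd ℂ) β) (β - t * (starRingEnd ℂ) α)) = _
    rw [hm _ _ (hne t), hA, hB, hC, hE]
    congr 1 <;> ring
  have hden : ∀ t : ℂ, ‖t‖ < R → C + t * E ≠ 0 := by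
    intro t ht h0
    apply hfin (rot t) ((hlt t).2 ht)
    rw [hφr, h0, prj_zero]
  obtain ⟨g, hg⟩ : ∃ g : ℂ → ℂ, g = fun w => (A + (R : ℂ) * w * B) / (C + (R : ℂ) * w * E) := ⟨_, rfl⟩
  have hnR : ∀ w : ℂ, ‖(R : ℂ) * w‖ = R * ‖w‖ := by
    intro w
    rw [norm_mul, Complex.norm_real, Real.norm_of_nonneg hR0.le]
  have hwR : ∀ w ∈ ball (0 : ℂ) 1, ‖(R : ℂ) * w‖ < R := by
    intro w hw
    rw [hnR]
    rw [mem_ball_zero_iff] at hw
    nlinarith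
  have hgr : ∀ w ∈ ball (0 : ℂ) 1, (g w : OnePoint ℂ) = φ (rot ((R : ℂ) * w)) := by
    intro w hw
    rw [hφr, prj_ne (hden _ (hwR w hw)), hg]
  have hg0 : ∀ w ∈ ball (0 : ℂ) 1, C + (R : ℂ) * w * E ≠ 0 := fun w hw => hden _ (hwR w hw)
  have hRc : (R : ℂ) ≠ 0 := by exact_mod_cast hR0.ne'
  have h01 : (0 : ℂ) ∈ ball (0 : ℂ) 1 := mem_ball_self one_pos
  refine ⟨g, ?_, ?_, ?_, ?_, ?_⟩
  · rw [hg]
    apply DifferentiableOn.div
    · fun_prop
    · fun_prop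
    · exact hg0
  · intro w1 h1 w2 h2 h12
    rw [hg] at h12
    have h3 : (A + (R : ℂ) * w1 * B) * (C + (R : ℂ) * w2 * E) = (A + (R : ℂ) * w2 * B) * (C + (R : ℂ) * w1 * E) :=
      (div_eq_div_iff (hg0 w1 h1) (hg0 w2 h2)).1 h12
    have h4 : (A * E - B * C) * (R : ℂ) * (w2 - w1) = 0 := by linear_combination h3
    have h5 := (mul_eq_zero.1 h4).resolve_left (mul_ne_zero hdet hRc)
    exact (sub_eq_zero.1 h5).symm
  · rw [hgr 0 h01, mul_zero, hrot]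
    show φ (prj (α + 0 * (starRingEnd ℂ) β) (β - 0 * (starRingEnd ℂ) α)) = _
    rw [zero_mul, zero_mul, add_zero, sub_zero]
  · intro x
    constructor
    · intro hx
      -- `x = rot t`
      obtain ⟨t, ht⟩ : ∃ t, x = rot t := by
        obtain ⟨u, v, huv, rfl⟩ := prj_unit x
        have huv0 : u ≠ 0 ∨ v ≠ 0 := by
          by_contra hcon
          push Not at hcon
          obtain ⟨h1, h2⟩ := hcon
          rw [h1, h2, norm_zero] at huv
          norm_num at huv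
        have huv1 : u * (starRingEnd ℂ) u + v * (starRingEnd ℂ) v = 1 := by
          have h1 : ((‖u‖ ^ 2 : ℝ) : ℂ) + ((‖v‖ ^ 2 : ℝ) : ℂ) = 1 := by exact_mod_cast congrArg (fun r : ℝ => (r : ℂ)) huv
          rwa [hn, hn] at h1
        obtain ⟨s1, hs1⟩ : ∃ s1, s1 = u * (starRingEnd ℂ) α + v * (starRingEnd ℂ) β := ⟨_, rfl⟩
        obtain ⟨s2, hs2⟩ : ∃ s2, s2 = u * β - v * α := ⟨_, rfl⟩
        have h10 : s1 ≠ 0 := by
          intro h0
          rw [chord_prj hαβ huv0, hu, huv, Real.sqrt_one, mul_one, div_one] at hx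
          have h1 : ‖α * v - u * β‖ ^ 2 = 1 := by
            have h2 : ((‖α * v - u * β‖ ^ 2 : ℝ) : ℂ) = 1 := by
              rw [hn, map_sub, map_mul, map_mul]
              rw [hs1] at h0
              have h0' : (starRingEnd ℂ) u * α + (starRingEnd ℂ) v * β = 0 := by
                have h3 := congrArg (starRingEnd ℂ) h0
                rwa [map_add, map_mul, map_mul, Complex.conj_conj, Complex.conj_conj, map_zero] at h3
              linear_combination (α * (starRingEnd ℂ) α + β * (starRingEnd ℂ) β) * huv1 + hu1 -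
                ((starRingEnd ℂ) u * α + (starRingEnd ℂ) v * β) * h0
            exact_mod_cast h2
          have h4 : 1 ≤ ‖α * v - u * β‖ := by
            by_contra hlt'
            push Not at hlt'
            have h5 := norm_nonneg (α * v - u * β)
            nlinarith
          linarith
        refine ⟨s2 / s1, ?_⟩
        have h1 : u = s1 * (α + s2 / s1 * (starRingEnd ℂ) β) := by
          have e1 : s1 * (α + s2 / s1 * (starRingEnd ℂ) β) = s1 * α + s2 * (starRingEnd ℂ) β := by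
            field_simp
          rw [e1, hs1, hs2]
          linear_combination (-u) * hu1
        have h2 : v = s1 * (β - s2 / s1 * (starRingEnd ℂ) α) := by
          have e1 : s1 * (β - s2 / s1 * (starRingEnd ℂ) α) = s1 * β - s2 * (starRingEnd ℂ) α := by
            field_simp
          rw [e1, hs1, hs2]
          linear_combination (-v) * hu1
        rw [hrot]
        show prj u v = prj (α + s2 / s1 * (starRingEnd ℂ) β) (β - s2 / s1 * (starRingEnd ℂ) α)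
        conv_lhs => rw [h1, h2]
        exact prj_smul h10
      subst ht
      have h1 := (hlt t).1 hx
      have hw : t / (R : ℂ) ∈ ball (0 : ℂ) 1 := by
        rw [mem_ball_zero_iff, norm_div, Complex.norm_real, Real.norm_of_nonneg hR0.le, div_lt_one hR0]
        exact h1
      refine ⟨t / (R : ℂ), hw, ?_⟩
      rw [hgr _ hw, mul_div_cancel₀ _ hRc]
    · rintro ⟨w, hw, h⟩
      rw [hgr w hw] at h
      rw [← φ.injective h]
      exact (hlt _).2 (hwR w hw)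
  · intro k hk0 hk1 w hw h
    rw [hgr w hw, φ.symm_apply_apply, hcmp _ (k * r) (mul_pos hk0 hr0), hnR] at h
    -- `(R |w|)² (1 - k² r²) < k² r²`, `R² = r² / (1 - r²)`
    have h1 : ‖w‖ ^ 2 < k ^ 2 := by
      have hk2 : k ^ 2 < 1 := by nlinarith
      have hw0 : 0 ≤ ‖w‖ ^ 2 := by positivity
      have h2 : R ^ 2 * ‖w‖ ^ 2 * (1 - r ^ 2) < k ^ 2 * r ^ 2 * (1 + R ^ 2 * ‖w‖ ^ 2) * (1 - r ^ 2) := by
        apply mul_lt_mul_of_pos_right _ hr2
        nlinarith [h]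
      have h3 : r ^ 2 * ‖w‖ ^ 2 < k ^ 2 * r ^ 2 * ((1 - r ^ 2) + r ^ 2 * ‖w‖ ^ 2) := by
        have e1 : R ^ 2 * ‖w‖ ^ 2 * (1 - r ^ 2) = r ^ 2 * ‖w‖ ^ 2 := by
          calc R ^ 2 * ‖w‖ ^ 2 * (1 - r ^ 2) = (R ^ 2 * (1 - r ^ 2)) * ‖w‖ ^ 2 := by ring
            _ = _ := by rw [hR2]
        have e2 : k ^ 2 * r ^ 2 * (1 + R ^ 2 * ‖w‖ ^ 2) * (1 - r ^ 2) = k ^ 2 * r ^ 2 * ((1 - r ^ 2) + r ^ 2 * ‖w‖ ^ 2) := by
          calc k ^ 2 * r ^ 2 * (1 + R ^ 2 * ‖w‖ ^ 2) * (1 - r ^ 2)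
              = k ^ 2 * r ^ 2 * ((1 - r ^ 2) + (R ^ 2 * (1 - r ^ 2)) * ‖w‖ ^ 2) := by ring
            _ = _ := by rw [hR2]
        rwa [e1, e2] at h2
      have h4 : r ^ 2 * ‖w‖ ^ 2 < r ^ 2 * (k ^ 2 * ((1 - r ^ 2) + r ^ 2 * ‖w‖ ^ 2)) := by
        calc r ^ 2 * ‖w‖ ^ 2 < _ := h3
          _ = _ := by ring
      have h5 := lt_of_mul_lt_mul_left h4 (by positivity)
      by_contra hcon
      push Not at hcon
      -- `‖w‖² ≥ k²`, `‖w‖² < k² (1 - r²) + k² r² ‖w‖² ≤ ‖w‖² (1 - r²) + r² ‖w‖²`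
      have hr22 : 0 < r ^ 2 := by positivity
      have h6 : k ^ 2 * (1 - r ^ 2) ≤ ‖w‖ ^ 2 * (1 - r ^ 2) := mul_le_mul_of_nonneg_right hcon hr2.le
      have h7 : k ^ 2 * (r ^ 2 * ‖w‖ ^ 2) ≤ 1 * (r ^ 2 * ‖w‖ ^ 2) := mul_le_mul_of_nonneg_right hk2.le (by positivity)
      nlinarith
    exact lt_of_pow_lt_pow_left₀ 2 hk0.le h1

end Pool.Agent.H64.MM
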